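import Pool.Agent.H930Z.Dir.Spec

/-! Existence of the one variable profiles. -/

open MeasureTheory Set Filter Topology Real

noncomputable section

namespace H458Z.DirProf

open H930Z.Dir

theorem exists_step (t1 t2 B : ℝ) (h12 : t1 < t2) (hB : 1 < B * (t2 - t1)) :
    ∃ l l' : ℝ → ℝ, Continuous l' ∧ (∀ t, HasDerivAt l (l' t) t) ∧ (∀ t, 0 ≤ l' t) ∧
      (∀ t, l' t ≤ B) ∧ (∀ t, l' t ≠ 0 → t1 < t ∧ t < t2) ∧ (∀ t, t ≤ t1 → l t = 0) ∧
      (∀ t, t2 ≤ t → l t = 1) ∧ (∀ t, 0 ≤ l t) ∧ (∀ t, l t ≤ 1) := by
  have hB0 : 0 < B := by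
    by_contra h
    have h' : B ≤ 0 := not_lt.mp h
    have : B * (t2 - t1) ≤ 0 := mul_nonpos_of_nonpos_of_nonneg h' (by linarith)
    linarith
  have hBi : 1 / B < t2 - t1 := by
    rw [div_lt_iff₀ hB0]; linarith
  have hBp : 0 < 1 / B := by positivity
  set d : ℝ := (t2 - t1 - 1 / B) / 2 with hd
  have hd0 : 0 < d := by rw [hd]; linarith
  set b : ℝ → ℝ := fun t => max 0 (min 1 (min ((t - t1) / d) ((t2 - t) / d))) with hb
  have bc : Continuous b := by
    rw [hb]; fun_prop
  have b0 : ∀ t, 0 ≤ b t := fun t => le_max_left _ _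
  have b1 : ∀ t, b t ≤ 1 := fun t => max_le zero_le_one (min_le_left _ _)
  have bl : ∀ t, t ≤ t1 → b t = 0 := by
    intro t ht
    apply max_eq_left
    refine (min_le_right _ _).trans ((min_le_left _ _).trans ?_)
    exact div_nonpos_of_nonpos_of_nonneg (by linarith) hd0.le
  have br : ∀ t, t2 ≤ t → b t = 0 := by
    intro t ht
    apply max_eq_left
    refine (min_le_right _ _).trans ((min_le_right _ _).trans ?_)
    exact div_nonpos_of_nonpos_of_nonneg (by linarith) hd0.le
  have bm : ∀ t, t1 + d ≤ t → t ≤ t2 - d → b t = 1 := by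
    intro t h1 h2
    have e1 : 1 ≤ (t - t1) / d := by rw [le_div_iff₀ hd0]; linarith
    have e2 : 1 ≤ (t2 - t) / d := by rw [le_div_iff₀ hd0]; linarith
    have : min 1 (min ((t - t1) / d) ((t2 - t) / d)) = 1 := min_eq_left (le_min e1 e2)
    show max 0 (min 1 (min ((t - t1) / d) ((t2 - t) / d))) = 1
    rw [this]; exact max_eq_right zero_le_one
  set P : ℝ → ℝ := fun t => ∫ s in t1..t, b s with hP
  have dP : ∀ t, HasDerivAt P (b t) t := fun t => (bc.integral_hasStrictDerivAt t1 t).hasDerivAt
  have Pm : Monotone P := by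
    apply monotone_of_deriv_nonneg (fun t => (dP t).differentiableAt)
    intro t; rw [(dP t).deriv]; exact b0 t
  have ii : ∀ a c, IntervalIntegrable b volume a c := fun a c => bc.intervalIntegrable a c
  have Pl : ∀ t, t ≤ t1 → P t = 0 := by
    intro t ht
    show ∫ s in t1..t, b s = 0
    rw [intervalIntegral.integral_congr (g := fun _ => (0 : ℝ))]
    · simp
    · intro s hs
      rw [uIcc_of_ge ht] at hs
      exact bl s hs.2
  have Pr : ∀ t, t2 ≤ t → P t = P t2 := by
    intro t ht
    show ∫ s in t1..t, b s = ∫ s in t1..t2, b s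
    rw [← intervalIntegral.integral_add_adjacent_intervals (ii t1 t2) (ii t2 t)]
    have : ∫ s in t2..t, b s = 0 := by
      rw [intervalIntegral.integral_congr (g := fun _ => (0 : ℝ))]
      · simp
      · intro s hs
        rw [uIcc_of_le ht] at hs
        exact br s hs.1
    rw [this, add_zero]
  have PI : 1 / B ≤ P t2 := by
    have e1 : P (t2 - d) = P (t1 + d) + ∫ s in (t1 + d)..(t2 - d), b s :=
      (intervalIntegral.integral_add_adjacent_intervals (ii t1 (t1 + d))
        (ii (t1 + d) (t2 - d))).symm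
    have hle : t1 + d ≤ t2 - d := by rw [hd]; linarith
    have e2 : ∫ s in (t1 + d)..(t2 - d), b s = 1 / B := by
      rw [intervalIntegral.integral_congr (g := fun _ => (1 : ℝ))]
      · simp only [intervalIntegral.integral_const, smul_eq_mul, mul_one]
        rw [hd]; ring
      · intro s hs
        rw [uIcc_of_le hle] at hs
        exact bm s hs.1 hs.2
    have e3 : P t1 ≤ P (t1 + d) := Pm (by linarith)
    have e4 : P (t2 - d) ≤ P t2 := Pm (by linarith)
    have e5 := Pl t1 le_rfl
    linarith
  have I0 : 0 < P t2 := lt_of_lt_of_le hBp PI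
  refine ⟨fun t => P t / P t2, fun t => b t / P t2, bc.div_const _,
    fun t => (dP t).div_const _, fun t => div_nonneg (b0 t) I0.le, ?_, ?_, ?_, ?_, ?_, ?_⟩
  · intro t
    show b t / P t2 ≤ B
    rw [div_le_iff₀ I0]
    have : 1 ≤ B * P t2 := by
      rw [div_le_iff₀ hB0] at PI; linarith
    exact (b1 t).trans this
  · intro t ht
    constructor
    · by_contra h
      exact ht (by show b t / P t2 = 0; rw [bl t (not_lt.mp h), zero_div])
    · by_contra h
      exact ht (by show b t / P t2 = 0; rw [br t (not_lt.mp h), zero_div])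
  · intro t ht
    show P t / P t2 = 0
    rw [Pl t ht, zero_div]
  · intro t ht
    show P t / P t2 = 1
    rw [Pr t ht, div_self I0.ne']
  · intro t
    show 0 ≤ P t / P t2
    apply div_nonneg _ I0.le
    rcases le_total t t1 with h | h
    · exact (Pl t h).ge
    · exact (Pl t1 le_rfl).ge.trans (Pm h)
  · intro t
    show P t / P t2 ≤ 1
    rw [div_le_one I0]
    rcases le_total t t2 with h | h
    · exact Pm h
    · exact (Pr t h).le

theorem prof : S_prof := by
  intro t1 t2 B h1 h12 h2 hB
  obtain ⟨l, l', lc, dl, l0, lB, lz, ll, lr, lp, lq⟩ := exists_step t1 t2 B h12 hB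
  have hB0 : 0 < B := by
    by_contra h
    have h' : B ≤ 0 := not_lt.mp h
    have : B * (t2 - t1) ≤ 0 := mul_nonpos_of_nonpos_of_nonneg h' (by linarith)
    linarith
  have lcont : Continuous l := continuous_iff_continuousAt.mpr fun t => (dl t).continuousAt
  have lz1 : ∀ t, t ≤ t1 → l' t = 0 := by
    intro t ht; by_contra h; linarith [(lz t h).1]
  have lz2 : ∀ t, t2 ≤ t → l' t = 0 := by
    intro t ht; by_contra h; linarith [(lz t h).2]
  have dn : ∀ t, HasDerivAt (fun s => l (-s)) (-l' (-t)) t := by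
    intro t
    have := (dl (-t)).comp t (hasDerivAt_neg t)
    simpa [Function.comp_def] using this
  set L : ℝ → ℝ := fun t => l t - l (-t) with hL
  set L' : ℝ → ℝ := fun t => l' t + l' (-t) with hL'
  have dL : ∀ t, HasDerivAt L (L' t) t := by
    intro t
    have := (dl t).sub (dn t)
    rw [sub_neg_eq_add] at this
    exact this
  have Lc : Continuous L := continuous_iff_continuousAt.mpr fun t => (dL t).continuousAt
  have L'c : Continuous L' := lc.add (lc.comp continuous_neg)
  have Lr : ∀ t, t2 ≤ t → L t = 1 := by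
    intro t ht
    show l t - l (-t) = 1
    rw [lr t ht, ll (-t) (by linarith), sub_zero]
  have Ll : ∀ t, t ≤ -t2 → L t = -1 := by
    intro t ht
    show l t - l (-t) = -1
    rw [lr (-t) (by linarith), ll t (by linarith), zero_sub]
  have L'r : ∀ t, t2 ≤ t → L' t = 0 := by
    intro t ht
    show l' t + l' (-t) = 0
    rw [lz2 t ht, lz1 (-t) (by linarith), add_zero]
  have L'l : ∀ t, t ≤ -t2 → L' t = 0 := by
    intro t ht
    show l' t + l' (-t) = 0
    rw [lz2 (-t) (by linarith), lz1 t (by linarith), add_zero]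
  have L'0 : ∀ t, 0 ≤ L' t := fun t => add_nonneg (l0 _) (l0 _)
  set pt : ℝ → ℝ := fun t => (1 - L t) / (1 - t) ^ 2 with hpt
  set qt : ℝ → ℝ := fun t => (1 + L t) / (1 + t) ^ 2 with hqt
  set χ : ℝ → ℝ := fun t => L' t / (1 - t ^ 2) with hχ
  have ptr : ∀ t, t2 ≤ t → pt t = 0 := by
    intro t ht
    show (1 - L t) / (1 - t) ^ 2 = 0
    rw [Lr t ht, sub_self, zero_div]
  have qtl : ∀ t, t ≤ -t2 → qt t = 0 := by
    intro t ht
    show (1 + L t) / (1 + t) ^ 2 = 0
    rw [Ll t ht, add_neg_cancel, zero_div]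
  have χr : ∀ t, t2 ≤ t → χ t = 0 := by
    intro t ht
    show L' t / (1 - t ^ 2) = 0
    rw [L'r t ht, zero_div]
  have χl : ∀ t, t ≤ -t2 → χ t = 0 := by
    intro t ht
    show L' t / (1 - t ^ 2) = 0
    rw [L'l t ht, zero_div]
  have χe : ∀ t, χ t * (1 - t ^ 2) = L' t := by
    intro t
    rcases le_or_gt t2 t with h | h
    · rw [χr t h, L'r t h, zero_mul]
    rcases le_or_gt t (-t2) with h' | h'
    · rw [χl t h', L'l t h', zero_mul]
    have : 1 - t ^ 2 ≠ 0 := by nlinarith
    show L' t / (1 - t ^ 2) * (1 - t ^ 2) = L' t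
    field_simp
  have cp : Continuous pt := by
    refine continuous_iff_continuousAt.mpr fun t => ?_
    rcases lt_or_ge t 1 with h | h
    · have : (1 - t) ^ 2 ≠ 0 := pow_ne_zero _ (by linarith)
      exact ContinuousAt.div (f := fun t => 1 - L t) (g := fun t => (1 - t) ^ 2)
        (by fun_prop) (by fun_prop) this
    · have : pt =ᶠ[𝓝 t] fun _ => 0 := by
        filter_upwards [lt_mem_nhds (show t2 < t by linarith)] with s hs using ptr s hs.le
      exact continuousAt_const.congr this.symm
  have cq : Continuous qt := by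
    refine continuous_iff_continuousAt.mpr fun t => ?_
    rcases lt_or_ge (-1) t with h | h
    · have : (1 + t) ^ 2 ≠ 0 := pow_ne_zero _ (by linarith)
      exact ContinuousAt.div (f := fun t => 1 + L t) (g := fun t => (1 + t) ^ 2)
        (by fun_prop) (by fun_prop) this
    · have : qt =ᶠ[𝓝 t] fun _ => 0 := by
        filter_upwards [gt_mem_nhds (show t < -t2 by linarith)] with s hs using qtl s hs.le
      exact continuousAt_const.congr this.symm
  have cχ : Continuous χ := by
    refine continuous_iff_continuousAt.mpr fun t => ?_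
    rcases lt_or_ge t2 t with h | h
    · have : χ =ᶠ[𝓝 t] fun _ => 0 := by
        filter_upwards [lt_mem_nhds h] with s hs using χr s hs.le
      exact continuousAt_const.congr this.symm
    rcases lt_or_ge t (-t2) with h' | h'
    · have : χ =ᶠ[𝓝 t] fun _ => 0 := by
        filter_upwards [gt_mem_nhds h'] with s hs using χl s hs.le
      exact continuousAt_const.congr this.symm
    have : 1 - t ^ 2 ≠ 0 := by nlinarith
    exact ContinuousAt.div (f := L') (g := fun t => 1 - t ^ 2) L'c.continuousAt
      (by fun_prop) this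
  set g : ℝ → ℝ := fun t => ((1 + t) * qt t - (1 - t) * pt t) / 2 with hg
  have gc : Continuous g := by
    rw [hg]; fun_prop
  have dG : ∀ t, HasDerivAt (fun u => ∫ s in (0 : ℝ)..u, g s) (g t) t :=
    fun t => (gc.integral_hasStrictDerivAt 0 t).hasDerivAt
  refine ⟨pt, qt, χ, fun u => Real.exp (∫ s in (0 : ℝ)..u, g s), fun t => l t + l (-t),
    fun t => l' t - l' (-t), cp, cq, cχ, lc.sub (lc.comp continuous_neg), ?_, ?_, ?_, ?_, ?_,
    fun N => Real.exp_pos _, fun N => (dG N).exp, ?_, ?_, ?_, ?_, ?_, ?_, ?_, ?_, ?_⟩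
  · intro N
    rcases lt_or_ge N 1 with h | h
    · have hN : 1 - N ≠ 0 := by linarith
      have e : (fun t => (1 - t) * pt t) =ᶠ[𝓝 N] fun t => (1 - L t) / (1 - t) := by
        filter_upwards [gt_mem_nhds h] with s hs
        have : 1 - s ≠ 0 := by linarith
        show (1 - s) * ((1 - L s) / (1 - s) ^ 2) = (1 - L s) / (1 - s)
        field_simp
      refine HasDerivAt.congr_of_eventuallyEq ?_ e
      have d1 := ((dL N).const_sub 1).div ((hasDerivAt_id N).const_sub 1) hN
      have e2 : pt N - χ N * (1 + N) =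
          (-L' N * (1 - id N) - (1 - L N) * -1) / (1 - id N) ^ 2 := by
        rw [← χe N]
        show (1 - L N) / (1 - N) ^ 2 - χ N * (1 + N) = _
        simp only [id]
        field_simp
        ring
      rw [e2]
      exact d1
    · have e : (fun t => (1 - t) * pt t) =ᶠ[𝓝 N] fun _ => 0 := by
        filter_upwards [lt_mem_nhds (show t2 < N by linarith)] with s hs
        rw [ptr s hs.le, mul_zero]
      refine HasDerivAt.congr_of_eventuallyEq ?_ e
      rw [ptr N (by linarith), χr N (by linarith)]
      simpa using hasDerivAt_const N (0 : ℝ)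
  · intro N
    rcases lt_or_ge (-1) N with h | h
    · have hN : 1 + N ≠ 0 := by linarith
      have e : (fun t => (1 + t) * qt t) =ᶠ[𝓝 N] fun t => (1 + L t) / (1 + t) := by
        filter_upwards [lt_mem_nhds h] with s hs
        have : 1 + s ≠ 0 := by linarith
        show (1 + s) * ((1 + L s) / (1 + s) ^ 2) = (1 + L s) / (1 + s)
        field_simp
      refine HasDerivAt.congr_of_eventuallyEq ?_ e
      have d1 := ((dL N).const_add 1).div ((hasDerivAt_id N).const_add 1) hN
      have e2 : χ N * (1 - N) - qt N =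
          (L' N * (1 + id N) - (1 + L N) * 1) / (1 + id N) ^ 2 := by
        rw [← χe N]
        show χ N * (1 - N) - (1 + L N) / (1 + N) ^ 2 = _
        simp only [id]
        field_simp
        ring
      rw [e2]
      exact d1
    · have e : (fun t => (1 + t) * qt t) =ᶠ[𝓝 N] fun _ => 0 := by
        filter_upwards [gt_mem_nhds (show N < -t2 by linarith)] with s hs
        rw [qtl s hs.le, mul_zero]
      refine HasDerivAt.congr_of_eventuallyEq ?_ e
      rw [qtl N (by linarith), χl N (by linarith)]
      simpa using hasDerivAt_const N (0 : ℝ)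
  · intro N
    rcases le_or_gt t2 N with h | h
    · rw [ptr N h]
      have hN : 1 + N ≠ 0 := by linarith
      show (1 - N) ^ 2 * 0 + (1 + N) ^ 2 * ((1 + L N) / (1 + N) ^ 2) = 2
      rw [Lr N h]
      field_simp
      ring
    rcases le_or_gt N (-t2) with h' | h'
    · rw [qtl N h']
      have hN : 1 - N ≠ 0 := by linarith
      show (1 - N) ^ 2 * ((1 - L N) / (1 - N) ^ 2) + (1 + N) ^ 2 * 0 = 2
      rw [Ll N h']
      field_simp
      ring
    have hN : 1 + N ≠ 0 := by linarith
    have hN' : 1 - N ≠ 0 := by linarith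
    show (1 - N) ^ 2 * ((1 - L N) / (1 - N) ^ 2) + (1 + N) ^ 2 * ((1 + L N) / (1 + N) ^ 2) = 2
    field_simp
    ring
  · show (1 - (l 0 - l (-0))) / (1 - 0) ^ 2 = 1
    simp
  · show (1 + (l 0 - l (-0))) / (1 + 0) ^ 2 = 1
    simp
  · intro N
    have := (dl N).add (dn N)
    rw [← sub_eq_add_neg] at this
    exact this
  · intro N
    rw [χe N]
    show |l' N - l' (-N)| ≤ l' N + l' (-N)
    rw [abs_le]
    constructor <;> linarith [l0 N, l0 (-N)]
  · intro N
    exact add_nonneg (lp _) (lp _)
  · intro N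
    show l N + l (-N) ≤ 1
    rcases le_total N 0 with h | h
    · rw [ll N (by linarith), zero_add]; exact lq _
    · rw [ll (-N) (by linarith), add_zero]; exact lq _
  · intro N hN
    rw [abs_le] at hN
    show l N + l (-N) = 0
    rw [ll N hN.2, ll (-N) (by linarith [hN.1]), add_zero]
  · intro N hN
    show l N + l (-N) = 1
    rcases le_abs.mp hN with h | h
    · rw [lr N h, ll (-N) (by linarith), add_zero]
    · rw [lr (-N) h, ll N (by linarith), zero_add]
  · intro N
    rcases le_or_gt t2 N with h | h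
    · exact (χr N h).ge
    rcases le_or_gt N (-t2) with h' | h'
    · exact (χl N h').ge
    exact div_nonneg (L'0 N) (by nlinarith)
  · intro N
    rw [χe N]
    show l' N + l' (-N) ≤ B
    rcases le_total N 0 with h | h
    · rw [lz1 N (by linarith), zero_add]; exact lB _
    · rw [lz1 (-N) (by linarith), add_zero]; exact lB _
  · intro N hN
    have hL0 : L' N ≠ 0 := by
      intro h
      apply hN
      show L' N / (1 - N ^ 2) = 0
      rw [h, zero_div]
    by_cases h : l' N = 0
    · have h' : l' (-N) ≠ 0 := by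
        intro h'
        apply hL0
        show l' N + l' (-N) = 0
        rw [h, h', add_zero]
      obtain ⟨a, b⟩ := lz _ h'
      rw [abs_of_neg (by linarith)]
      exact ⟨a, b⟩
    · obtain ⟨a, b⟩ := lz _ h
      rw [abs_of_pos (by linarith)]
      exact ⟨a, b⟩

end H458Z.DirProf
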